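import Mathlib
import Pool.Agent.Helper697.Fold5

/-!
Robertson's question on homotopies through isometric foldings of round spheres: any two
non-trivial isometric foldings of `S^m` (`m ≥ 1`) are homotopic through isometric foldings,
up to composing one of them with isometries of `S^m` on both sides.
-/

open scoped RealInnerProductSpace ENNReal
open Set Filter Topology

namespace Pool.Agent.Results.MP_9d9d56_gt.RobertsonHomotopy

open Pool.Agent.Helper697

/-- Euclidean space of dimension `m + 1`. -/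
abbrev E (m : ℕ) : Type := EuclideanSpace ℝ (Fin (m + 1))

/-- The round unit sphere `S^m`. -/
abbrev Sph (m : ℕ) : Type := Metric.sphere (0 : E m) 1

/-- On `[a, b]` the path `γ` runs with constant speed `c ≥ 0` along the great circle through the
unit vector `p` with unit tangent direction `v` at time `a`. -/
def IsGeodesicOn {m : ℕ} (γ : ℝ → Sph m) (a b : ℝ) : Prop :=
  ∃ (p v : E m) (c : ℝ), ‖p‖ = 1 ∧ ‖v‖ = 1 ∧ ⟪p, v⟫ = 0 ∧ 0 ≤ c ∧
    ∀ t ∈ Icc a b, (γ t : E m) = Real.cos (c * (t - a)) • p + Real.sin (c * (t - a)) • v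

/-- The path `γ` is piecewise geodesic on `[a, b]`: there is a finite subdivision
`a = t 0 < t 1 < ⋯ < t n = b` such that `γ` is geodesic on every `[t i, t (i + 1)]`. -/
def IsPiecewiseGeodesicOn {m : ℕ} (γ : ℝ → Sph m) (a b : ℝ) : Prop :=
  ∃ (n : ℕ) (t : ℕ → ℝ), t 0 = a ∧ t n = b ∧ (∀ i < n, t i < t (i + 1)) ∧
    ∀ i < n, IsGeodesicOn γ (t i) (t (i + 1))

/-- The length of the path `γ` on `[a, b]` (its total variation). -/
noncomputable def pathLength {m : ℕ} (γ : ℝ → Sph m) (a b : ℝ) : ℝ≥0∞ :=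
  eVariationOn γ (Icc a b)

/-- Isometric foldings of the sphere: continuous maps sending every piecewise geodesic path to a
piecewise geodesic path of the same length. -/
def IsIsometricFolding {m : ℕ} (f : Sph m → Sph m) : Prop :=
  Continuous f ∧ ∀ (γ : ℝ → Sph m) (a b : ℝ), a ≤ b → IsPiecewiseGeodesicOn γ a b →
    IsPiecewiseGeodesicOn (f ∘ γ) a b ∧ pathLength (f ∘ γ) a b = pathLength γ a b

/-- Isometries of the sphere `S^m` onto itself. -/
def IsSphereIsometry {m : ℕ} (φ : Sph m → Sph m) : Prop :=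
  Isometry φ ∧ Function.Surjective φ

/-- Non-trivial isometric foldings: isometric foldings which are not isometries. -/
def IsNontrivialFolding {m : ℕ} (f : Sph m → Sph m) : Prop :=
  IsIsometricFolding f ∧ ¬ IsSphereIsometry f

/-- `g` and `h` are homotopic through isometric foldings. -/
def HomotopicThroughFoldings {m : ℕ} (g h : Sph m → Sph m) : Prop :=
  ∃ H : Sph m × unitInterval → Sph m, Continuous H ∧ (∀ x, H (x, 0) = g x) ∧
    (∀ x, H (x, 1) = h x) ∧ ∀ t, IsIsometricFolding fun x => H (x, t)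

variable {m : ℕ}

lemma norm_sph (x : Sph m) : ‖(x : E m)‖ = 1 := mem_sphere_zero_iff_norm.mp x.2

/-- The positively homogeneous extension. -/
noncomputable def hext (f : Sph m → Sph m) (x : E m) : E m :=
  if h : x = 0 then 0 else ‖x‖ • (f ⟨‖x‖⁻¹ • x, by
    rw [mem_sphere_zero_iff_norm, norm_smul, norm_inv, norm_norm,
      inv_mul_cancel₀ (norm_ne_zero_iff.mpr h)]⟩ : E m)

lemma hext_sph (f : Sph m → Sph m) (x : Sph m) : hext f x = f x := by
  have h1 := norm_sph x
  have h0 : (x : E m) ≠ 0 := by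
    intro h
    rw [h, norm_zero] at h1
    exact zero_ne_one h1
  have h2 : ∀ h : ‖(x : E m)‖⁻¹ • (x : E m) ∈ Metric.sphere (0 : E m) 1,
      (⟨‖(x : E m)‖⁻¹ • (x : E m), h⟩ : Sph m) = x := by
    intro h
    apply Subtype.ext
    change ‖(x : E m)‖⁻¹ • (x : E m) = x
    rw [h1, inv_one, one_smul]
  rw [hext, dif_neg h0, h2, h1, one_smul]

lemma hext_norm (f : Sph m → Sph m) (x : E m) : ‖hext f x‖ = ‖x‖ := by
  rw [hext]
  split_ifs with h
  · rw [h]
  · rw [norm_smul, norm_norm, norm_sph, mul_one]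

lemma hext_inner (f : Sph m → Sph m)
    (hf : ∀ x y : Sph m, ⟪(x : E m), (y : E m)⟫ ≤ ⟪(f x : E m), (f y : E m)⟫) (x y : E m) :
    ⟪x, y⟫ ≤ ⟪hext f x, hext f y⟫ := by
  by_cases hx : x = 0
  · rw [hx, inner_zero_left, hext, dif_pos rfl, inner_zero_left]
  by_cases hy : y = 0
  · rw [hy, inner_zero_right, hext, hext, dif_pos rfl, inner_zero_right]
  rw [hext, dif_neg hx, hext, dif_neg hy, real_inner_smul_left, real_inner_smul_right]
  have hx' : ‖x‖ ≠ 0 := norm_ne_zero_iff.mpr hx
  have hy' : ‖y‖ ≠ 0 := norm_ne_zero_iff.mpr hy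
  have h1 := hf ⟨‖x‖⁻¹ • x, by
    rw [mem_sphere_zero_iff_norm, norm_smul, norm_inv, norm_norm, inv_mul_cancel₀ hx']⟩
    ⟨‖y‖⁻¹ • y, by
    rw [mem_sphere_zero_iff_norm, norm_smul, norm_inv, norm_norm, inv_mul_cancel₀ hy']⟩
  simp only [real_inner_smul_left, real_inner_smul_right] at h1
  have h2 : ⟪x, y⟫ = ‖x‖ * (‖y‖ * (‖x‖⁻¹ * (‖y‖⁻¹ * ⟪x, y⟫))) := by
    field_simp
  rw [mul_left_comm] at h1
  rw [h2]
  gcongr

lemma pg_iff (γ : ℝ → Sph m) (a b : ℝ) :
    IsPiecewiseGeodesicOn γ a b ↔ PGV (fun t => (γ t : E m)) a b := Iff.rfl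

lemma len_eq (γ : ℝ → Sph m) (a b : ℝ) :
    pathLength γ a b = eVariationOn (fun t => (γ t : E m)) (Icc a b) := rfl

/-- the orthonormal pair needed to know that `m + 1 ≥ 2` -/
lemma exists_pair (hm : 1 ≤ m) : ∃ p v : E m, ‖p‖ = 1 ∧ ‖v‖ = 1 ∧ ⟪p, v⟫ = 0 := by
  refine ⟨EuclideanSpace.single ⟨0, by omega⟩ 1, EuclideanSpace.single ⟨1, by omega⟩ 1,
    by simp, by simp, ?_⟩
  rw [EuclideanSpace.inner_single_left]
  simp

lemma circle_mem {x u : E m} (hx : ‖x‖ = 1) (hu : ‖u‖ = 1) (hxu : ⟪x, u⟫ = 0) (t : ℝ) :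
    Real.cos t • x + Real.sin t • u ∈ Metric.sphere (0 : E m) 1 := by
  rw [mem_sphere_zero_iff_norm]
  exact arc_norm hx hu hxu t

/-- the unit speed great circle -/
noncomputable def circ {x u : E m} (hx : ‖x‖ = 1) (hu : ‖u‖ = 1) (hxu : ⟪x, u⟫ = 0) (t : ℝ) :
    Sph m := ⟨Real.cos t • x + Real.sin t • u, circle_mem hx hu hxu t⟩

lemma circ_geo {x u : E m} (hx : ‖x‖ = 1) (hu : ‖u‖ = 1) (hxu : ⟪x, u⟫ = 0) (θ : ℝ) :
    GeoV (fun t => (circ hx hu hxu t : E m)) 0 θ x u 1 := by
  refine ⟨hx, hu, hxu, zero_le_one, ?_⟩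
  intro t _
  simp [circ]

lemma folding_inner (hm : 1 ≤ m) {f : Sph m → Sph m} (hf : IsIsometricFolding f)
    (x y : Sph m) : ⟪(x : E m), (y : E m)⟫ ≤ ⟪(f x : E m), (f y : E m)⟫ := by
  obtain ⟨p, v, hp, hv, hpv⟩ := exists_pair hm
  obtain ⟨u, hu, hxu, θ, hθ0, hθπ, hy⟩ := polar hp hv hpv (norm_sph x) (norm_sph y)
  rcases hθ0.eq_or_lt with h0 | h0
  · have hxy : y = x := by
      apply Subtype.ext
      rw [hy, ← h0]; simp
    rw [hxy, real_inner_self_eq_norm_sq, real_inner_self_eq_norm_sq, norm_sph, norm_sph]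
  · have hg := circ_geo (norm_sph x) hu hxu θ
    obtain ⟨h1, h2⟩ := hf.2 (circ (norm_sph x) hu hxu) 0 θ hθ0
      ((pg_iff _ _ _).mpr (PGV.of_geo hg hθ0))
    rw [len_eq, len_eq, geo_var hg hθ0] at h2
    rw [pg_iff] at h1
    rcases h1.angle_le with h3 | h3
    · have h4 : eVariationOn (fun t => ((f ∘ circ (norm_sph x) hu hxu) t : E m)) (Icc 0 θ) =
          ENNReal.ofReal (1 * (θ - 0)) := h2
      rw [h4] at h3
      have e0 : circ (norm_sph x) hu hxu 0 = x := by
        apply Subtype.ext; simp [circ]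
      have e1 : circ (norm_sph x) hu hxu θ = y := by
        apply Subtype.ext; rw [hy]; rfl
      simp only [Function.comp_apply, e0, e1] at h3
      rw [ENNReal.ofReal_le_ofReal_iff (by linarith)] at h3
      have h5 := InnerProductGeometry.cos_angle_mul_norm_mul_norm (f x : E m) (f y : E m)
      rw [norm_sph, norm_sph, one_mul, mul_one] at h5
      rw [← h5]
      have h6 : ⟪(x : E m), (y : E m)⟫ = Real.cos θ := by
        rw [hy]; exact arc_inner (norm_sph x) hxu θ
      rw [h6]
      exact Real.cos_le_cos_of_nonneg_of_le_pi (InnerProductGeometry.angle_nonneg _ _) hθπ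
        (by linarith)
    · linarith

lemma folding_expn (hm : 1 ≤ m) {f : Sph m → Sph m} (hf : IsIsometricFolding f) :
    Expn (hext f) :=
  ⟨hext_inner f (folding_inner hm hf), hext_norm f⟩

lemma folding_locStraight (hm : 1 ≤ m) {f : Sph m → Sph m} (hf : IsIsometricFolding f) :
    LocStraight (hext f) := by
  intro x u hx hu hxu
  have hF := folding_expn hm hf
  have hg := circ_geo hx hu hxu 1
  obtain ⟨h1, -⟩ := hf.2 (circ hx hu hxu) 0 1 zero_le_one
    ((pg_iff _ _ _).mpr (PGV.of_geo hg zero_le_one))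
  obtain ⟨n, t, ht0, htn, hlt, hgeo⟩ := h1
  have hn : 0 < n := by
    rcases Nat.eq_zero_or_pos n with h | h
    · subst h
      rw [ht0] at htn
      exact absurd htn zero_ne_one
    · exact h
  obtain ⟨p, v, c, hgc⟩ := hgeo 0 hn
  have hgc' : GeoV (fun t => ((f ∘ circ hx hu hxu) t : E m)) (t 0) (t (0 + 1)) p v c := hgc
  have ht1 := hlt 0 hn
  rw [zero_add, ht0] at ht1 hgc'
  set t1 := t 1 with ht1d
  -- equality of lengths on `[0, t1]` gives `c = 1`
  have hg1 := circ_geo hx hu hxu t1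
  obtain ⟨-, h2⟩ := hf.2 (circ hx hu hxu) 0 t1 ht1.le
    ((pg_iff _ _ _).mpr (PGV.of_geo hg1 ht1.le))
  rw [len_eq, len_eq, geo_var hg1 ht1.le, geo_var hgc' ht1.le] at h2
  have hc : c = 1 := by
    have h3 : c * (t1 - 0) = 1 * (t1 - 0) := by
      rw [ENNReal.ofReal_eq_ofReal_iff] at h2
      · exact h2
      · exact mul_nonneg hgc'.2.2.2.1 (by linarith)
      · linarith
    have h4 : t1 - 0 ≠ 0 := by linarith
    exact mul_right_cancel₀ h4 h3
  set δ := min t1 1 with hδ
  have hδ0 : 0 < δ := lt_min ht1 one_pos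
  have hδ1 : δ ≤ t1 := min_le_left _ _
  have hδ2 : δ ≤ 1 := min_le_right _ _
  have hin := geo_inner hgc' (s := 0) (t := δ) ⟨le_rfl, ht1.le⟩ ⟨hδ0.le, hδ1⟩
  rw [hc, one_mul, sub_zero] at hin
  have hcos : 0 < Real.cos δ := Real.cos_pos_of_mem_Ioo
    ⟨by linarith [Real.pi_gt_three], by linarith [Real.pi_gt_three]⟩
  refine ⟨Real.tan δ, Real.tan_pos_of_pos_of_lt_pi_div_two hδ0 (by linarith [Real.pi_gt_three]),
    ?_⟩
  have e1 : x + Real.tan δ • u = (Real.cos δ)⁻¹ • (circ hx hu hxu δ : E m) := by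
    rw [circ, smul_add, smul_smul, smul_smul, inv_mul_cancel₀ hcos.ne', one_smul,
      Real.tan_eq_sin_div_cos, div_eq_inv_mul]
  have e2 : x = (circ hx hu hxu 0 : E m) := by simp [circ]
  rw [e1, hF.smul _ (by positivity), real_inner_smul_right, hext_sph]
  have e3 : hext f x = f (circ hx hu hxu 0) := by
    conv_lhs => rw [e2]
    rw [hext_sph]
  rw [e3]
  have e4 : ⟪(f (circ hx hu hxu 0) : E m), (f (circ hx hu hxu δ) : E m)⟫ = Real.cos δ := hin
  rw [e4, inv_mul_cancel₀ hcos.ne']

lemma folding_cover (hm : 1 ≤ m) {f : Sph m → Sph m} (hf : IsIsometricFolding f) :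
    FinCover (hext f) univ :=
  structure_thm (folding_expn hm hf) (folding_locStraight hm hf)

/-- restriction of a norm preserving map to the sphere -/
def rs (F : E m → E m) (hF : ∀ x, ‖F x‖ = ‖x‖) (x : Sph m) : Sph m :=
  ⟨F x, by rw [mem_sphere_zero_iff_norm, hF, norm_sph]⟩

lemma folding_rs {F : E m → E m} (hF : Expn F) (hcov : FinCover F univ) :
    IsIsometricFolding (rs F hF.2) := by
  refine ⟨?_, ?_⟩
  · have := hF.continuous
    unfold rs
    fun_prop
  · intro γ a b _ hγ
    rw [pg_iff] at hγ ⊢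
    rw [len_eq, len_eq]
    exact good_PG hF hcov hγ

lemma folding_comp {f g : Sph m → Sph m} (hf : IsIsometricFolding f)
    (hg : IsIsometricFolding g) : IsIsometricFolding (f ∘ g) := by
  refine ⟨hf.1.comp hg.1, ?_⟩
  intro γ a b hab hγ
  obtain ⟨h1, h2⟩ := hg.2 γ a b hab hγ
  obtain ⟨h3, h4⟩ := hf.2 (g ∘ γ) a b hab h1
  exact ⟨h3, h4.trans h2⟩

lemma expn_lin (T : E m ≃ₗᵢ[ℝ] E m) : Expn (T : E m → E m) :=
  ⟨fun x y => (T.inner_map_map x y).ge, fun x => T.norm_map x⟩

lemma cover_lin (T : E m ≃ₗᵢ[ℝ] E m) : FinCover (T : E m → E m) univ :=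
  FinCover.of_iso fun x _ y _ => T.inner_map_map x y

/-- the isometry of the sphere given by a linear isometry -/
noncomputable def sphIso (T : E m ≃ₗᵢ[ℝ] E m) : Sph m ≃ᵢ Sph m where
  toFun := rs T T.norm_map
  invFun := rs T.symm T.symm.norm_map
  left_inv x := by apply Subtype.ext; simp [rs]
  right_inv x := by apply Subtype.ext; simp [rs]
  isometry_toFun := by
    apply Isometry.of_dist_eq
    intro x y
    rw [Subtype.dist_eq, Subtype.dist_eq]
    exact T.dist_map _ _

lemma folding_sphIso (T : E m ≃ₗᵢ[ℝ] E m) : IsIsometricFolding (sphIso T) :=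
  folding_rs (expn_lin T) (cover_lin T)

lemma expn_comp {F : E m → E m} (T : E m ≃ₗᵢ[ℝ] E m) (hF : Expn F) :
    Expn (fun x => T (F x)) :=
  ⟨fun x y => by rw [T.inner_map_map]; exact hF.1 x y, fun x => by rw [T.norm_map]; exact hF.2 x⟩

lemma cover_comp {F : E m → E m} (T : E m ≃ₗᵢ[ℝ] E m) (hF : FinCover F univ) :
    FinCover (fun x => T (F x)) univ := by
  obtain ⟨C, h1, h2, h3⟩ := hF
  refine ⟨C, h1, fun S hS x hx y hy => ?_, h3⟩
  rw [T.inner_map_map]
  exact h2 S hS x hx y hy

/-! ### Homotopies -/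

lemma hom_iff {g h : Sph m → Sph m} (hg : Continuous g) (hh : Continuous h) :
    HomotopicThroughFoldings g h ↔ ContinuousMap.HomotopicWith (⟨g, hg⟩ : C(Sph m, Sph m))
      ⟨h, hh⟩ (fun f => IsIsometricFolding f) := by
  constructor
  · rintro ⟨H, hH, h0, h1, hf⟩
    exact ⟨{ toFun := fun p => H (p.2, p.1)
             continuous_toFun := by fun_prop
             map_zero_left := fun x => h0 x
             map_one_left := fun x => h1 x
             prop' := fun t => hf t }⟩
  · rintro ⟨H⟩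
    refine ⟨fun p => H (p.2, p.1), by fun_prop, fun x => by simp, fun x => by simp, fun t => ?_⟩
    exact H.prop' t

lemma hom_symm {g h : Sph m → Sph m} (H : HomotopicThroughFoldings g h) :
    HomotopicThroughFoldings h g := by
  have hg : Continuous g := by
    obtain ⟨K, hK, h0, -⟩ := H
    exact (hK.comp (continuous_id.prodMk continuous_const)).congr h0
  have hh : Continuous h := by
    obtain ⟨K, hK, -, h1, -⟩ := H
    exact (hK.comp (continuous_id.prodMk continuous_const)).congr h1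
  rw [hom_iff hh hg]
  exact ((hom_iff hg hh).mp H).symm

lemma hom_trans {f g h : Sph m → Sph m} (H : HomotopicThroughFoldings f g)
    (H' : HomotopicThroughFoldings g h) : HomotopicThroughFoldings f h := by
  have hf : Continuous f := by
    obtain ⟨K, hK, h0, -⟩ := H
    exact (hK.comp (continuous_id.prodMk continuous_const)).congr h0
  have hg : Continuous g := by
    obtain ⟨K, hK, -, h1, -⟩ := H
    exact (hK.comp (continuous_id.prodMk continuous_const)).congr h1
  have hh : Continuous h := by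
    obtain ⟨K, hK, -, h1, -⟩ := H'
    exact (hK.comp (continuous_id.prodMk continuous_const)).congr h1
  rw [hom_iff hf hh]
  exact ((hom_iff hf hg).mp H).trans ((hom_iff hg hh).mp H')

lemma hom_comp {g h : Sph m → Sph m} (H : HomotopicThroughFoldings g h)
    (S T : E m ≃ₗᵢ[ℝ] E m) :
    HomotopicThroughFoldings (sphIso S ∘ g ∘ sphIso T) (sphIso S ∘ h ∘ sphIso T) := by
  obtain ⟨K, hK, h0, h1, hf⟩ := H
  refine ⟨fun p => sphIso S (K (sphIso T p.1, p.2)), ?_, ?_, ?_, ?_⟩
  · have e1 := (sphIso S).continuous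
    have e2 := (sphIso T).continuous
    fun_prop
  · intro x
    simp only [Function.comp_apply, h0]
  · intro x
    simp only [Function.comp_apply, h1]
  · intro t
    exact folding_comp (folding_sphIso S) (folding_comp (hf t) (folding_sphIso T))

/-- The homotopy obtained from the Brehm construction, when `G` is the identity near `-a`. -/
noncomputable def K (G : E m → E m) (a w : E m) (τ : ℝ) (x : E m) : E m :=
  if τ ≤ 0 then sfold w x else Bm G a (arc a w τ) x

lemma K_expn {G : E m → E m} (hG : Expn G) {a w : E m} (ha : ‖a‖ = 1) (hw : ‖w‖ = 1)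
    (haw : ⟪a, w⟫ = 0) (hGa : G (-a) = -a) {τ : ℝ} (hτ : τ ≤ Real.pi) : Expn (K G a w τ) := by
  by_cases h : τ ≤ 0
  · have : K G a w τ = sfold w := by ext1 x; simp [K, h]
    rw [this]
    exact sfold_expn hw
  · have : K G a w τ = Bm G a (arc a w τ) := by ext1 x; simp [K, h]
    rw [this]
    exact Bm_expn hG ha (arc_norm ha hw haw τ) hGa (arc_ne ha haw (not_le.mp h) hτ)

lemma K_cover {G : E m → E m} (hG : Expn G) (hcov : FinCover G univ) {a w : E m}
    (ha : ‖a‖ = 1) (hw : ‖w‖ = 1)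
    (haw : ⟪a, w⟫ = 0) (hGa : G (-a) = -a) {τ : ℝ} (hτ : τ ≤ Real.pi) :
    FinCover (K G a w τ) univ := by
  by_cases h : τ ≤ 0
  · have : K G a w τ = sfold w := by ext1 x; simp [K, h]
    rw [this]
    exact sfold_cover hw
  · have : K G a w τ = Bm G a (arc a w τ) := by ext1 x; simp [K, h]
    rw [this]
    exact Bm_cover hG hcov ha (arc_norm ha hw haw τ) hGa (arc_ne ha haw (not_le.mp h) hτ)

lemma K_cont {G : E m → E m} (hG : Expn G) {a w : E m} (ha : ‖a‖ = 1) (hw : ‖w‖ = 1)
    (haw : ⟪a, w⟫ = 0) {r : ℝ} (hr : 0 < r) (hid : ∀ y, ‖y + a‖ < r → G y = y) (x : E m) :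
    ContinuousOn (fun τ => K G a w τ x) (Icc 0 Real.pi) := by
  have hGa : G (-a) = -a := hid _ (by simpa using hr)
  intro τ hτ
  rcases hτ.1.eq_or_lt with h0 | h0
  · subst h0
    have h1 : ContinuousWithinAt (fun τ => K G a w τ x) (Ioi 0) 0 := by
      have h2 := limit_all hG ha hw haw hr hid x
      have h3 : K G a w 0 x = sfold w x := by simp [K]
      change Tendsto (fun τ => K G a w τ x) (𝓝[>] 0) (𝓝 (K G a w 0 x))
      rw [h3]
      refine h2.congr' ?_
      filter_upwards [self_mem_nhdsWithin] with τ hτ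
      rw [K, if_neg (not_le.mpr hτ)]
    rw [continuousWithinAt_Ioi_iff_Ici] at h1
    exact h1.mono Icc_subset_Ici_self
  · have h1 := cont_pos hG ha hw haw hGa x h0
    have h3 : K G a w τ x = Bm G a (arc a w τ) x := by rw [K, if_neg (not_le.mpr h0)]
    change Tendsto (fun τ => K G a w τ x) (𝓝[Icc 0 Real.pi] τ) (𝓝 (K G a w τ x))
    rw [h3]
    refine (h1.mono_left (nhdsWithin_mono _ (fun t ht => ht.2))).congr' ?_
    filter_upwards [mem_nhdsWithin_of_mem_nhds (Ioi_mem_nhds h0)] with t ht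
    rw [K, if_neg (not_le.mpr ht)]

/-- Every non-trivial isometric folding can be rolled to a simple fold followed by an
isometry. -/
theorem to_standard (hm : 1 ≤ m) {f : Sph m → Sph m} (hf : IsIsometricFolding f)
    (hnt : ¬ IsSphereIsometry f) : ∃ (T : E m ≃ₗᵢ[ℝ] E m) (w : E m) (hw : ‖w‖ = 1),
      HomotopicThroughFoldings f (sphIso T ∘ rs (sfold w) (sfold_expn hw).2) := by
  set F := hext f with hFdef
  have hF : Expn F := folding_expn hm hf
  have hcov : FinCover F univ := folding_cover hm hf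
  obtain ⟨C, hC1, hC2, hC3⟩ := hcov.cones hF
  -- a cone with nonempty interior
  have hint : ∃ M ∈ C, (interior M).Nonempty := by
    have : Countable C := hC1.countable
    have h1 : (⋃ M : C, (M : Set (E m))) = univ := by
      rw [← sUnion_eq_iUnion]
      exact eq_univ_of_univ_subset hC3
    obtain ⟨M, hM⟩ := nonempty_interior_of_iUnion_of_closed
      (fun M : C => (hC2 M M.2).closed) h1
    exact ⟨M, M.2, hM⟩
  obtain ⟨M, hMC, hMint⟩ := hint
  have hM := hC2 M hMC
  -- a nonzero interior point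
  obtain ⟨z, hz, hz0⟩ : ∃ z ∈ interior M, z ≠ 0 := by
    obtain ⟨z, hz⟩ := hMint
    by_cases h0 : z = 0
    · subst h0
      obtain ⟨r, hr, hball⟩ := Metric.isOpen_iff.mp isOpen_interior 0 hz
      obtain ⟨p, v, hp, -, -⟩ := exists_pair hm
      refine ⟨(r / 2) • p, hball ?_, ?_⟩
      · rw [mem_ball_zero_iff, norm_smul, hp, mul_one, Real.norm_eq_abs,
          abs_of_pos (by positivity)]
        linarith
      · rw [← norm_ne_zero_iff, norm_smul, hp, mul_one, Real.norm_eq_abs,
          abs_of_pos (by positivity)]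
        positivity
    · exact ⟨z, hz, h0⟩
  obtain ⟨r, hr, hball⟩ := Metric.isOpen_iff.mp isOpen_interior z hz
  have hball' : Metric.ball z r ⊆ M := hball.trans interior_subset
  have hzn : 0 < ‖z‖ := norm_pos_iff.mpr hz0
  obtain ⟨a, had⟩ : ∃ a : E m, a = -(‖z‖⁻¹ • z) := ⟨_, rfl⟩
  have ha : ‖a‖ = 1 := by
    rw [had, norm_neg, norm_smul, norm_inv, norm_norm, inv_mul_cancel₀ hzn.ne']
  set r' := r / ‖z‖ with hr'
  have hr'0 : 0 < r' := by positivity
  have hballa : ∀ y, ‖y + a‖ < r' → y ∈ M := by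
    intro y hy
    have h1 : ‖z‖ • y ∈ M := by
      apply hball'
      rw [mem_ball_iff_norm]
      have h2 : ‖z‖ • y - z = ‖z‖ • (y + a) := by
        rw [had, smul_add, smul_neg, smul_smul, mul_inv_cancel₀ hzn.ne', one_smul]
        abel
      rw [h2, norm_smul, norm_norm]
      rw [hr', lt_div_iff₀ hzn] at hy
      linarith
    have h3 := hM.comb _ h1 _ h1 ‖z‖⁻¹ 0 (by positivity) le_rfl
    rwa [smul_smul, inv_mul_cancel₀ hzn.ne', one_smul, zero_smul, add_zero] at h3
  have haM : -a ∈ M := hballa _ (by simpa using hr'0)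
  -- the linear isometry `T` with `F = T` on `M`
  obtain ⟨T, hT⟩ : ∃ T : E m ≃ₗᵢ[ℝ] E m, ∀ x ∈ M, F x = T x := by
    set δ := r' / 2 with hδ
    have hδ0 : 0 < δ := by positivity
    let b := EuclideanSpace.basisFun (Fin (m + 1)) ℝ
    have hbM : ∀ i, -a + δ • b i ∈ M := by
      intro i
      apply hballa
      rw [add_comm (-a), add_assoc, neg_add_cancel, add_zero, norm_smul, b.orthonormal.1 i,
        mul_one, Real.norm_eq_abs, abs_of_pos hδ0]
      linarith
    let c : Fin (m + 1) → E m := fun i => δ⁻¹ • (F (-a + δ • b i) - F (-a))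
    have hc1 : ∀ x ∈ M, ∀ i, ⟪F x, c i⟫ = ⟪x, b i⟫ := by
      intro x hx i
      simp only [c]
      rw [real_inner_smul_right, inner_sub_right, hM.iso x hx _ (hbM i), hM.iso x hx _ haM,
        inner_add_right, real_inner_smul_right]
      field_simp
      ring
    have hc2 : ∀ i j, ⟪c i, c j⟫ = ⟪b i, b j⟫ := by
      intro i j
      have h1 := hc1 _ (hbM i) j
      have h2 := hc1 _ haM j
      have h3 : ⟪c i, c j⟫ = δ⁻¹ * (⟪F (-a + δ • b i), c j⟫ - ⟪F (-a), c j⟫) := by
        conv_lhs => rw [show c i = δ⁻¹ • (F (-a + δ • b i) - F (-a)) from rfl]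
        rw [real_inner_smul_left, inner_sub_left]
      rw [h3, h1, h2, inner_add_left, real_inner_smul_left]
      field_simp
      ring
    have hc : Orthonormal ℝ c := by
      rw [orthonormal_iff_ite]
      intro i j
      rw [hc2]
      exact (orthonormal_iff_ite.mp b.orthonormal) i j
    have hspan : ⊤ ≤ Submodule.span ℝ (Set.range c) := by
      have h1 := hc.linearIndependent.span_eq_top_of_card_eq_finrank' (by simp)
      exact h1.ge
    let b' : OrthonormalBasis (Fin (m + 1)) ℝ (E m) := OrthonormalBasis.mk hc hspan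
    refine ⟨b.equiv b' (Equiv.refl _), ?_⟩
    intro x hx
    apply InnerProductSpace.ext_inner_right_basis b'.toBasis
    intro i
    have h1 : b'.toBasis i = c i := by simp [b']
    have h2 : (b.equiv b' (Equiv.refl _)) (b i) = c i := by
      rw [OrthonormalBasis.equiv_apply_basis]
      simp [b']
    rw [h1, hc1 x hx i, ← h2, LinearIsometryEquiv.inner_map_map]
  -- normalise
  set G : E m → E m := fun x => T.symm (F x) with hG
  have hGe : Expn G := expn_comp T.symm hF
  have hGc : FinCover G univ := cover_comp T.symm hcov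
  have hGid : ∀ y, ‖y + a‖ < r' → G y = y := by
    intro y hy
    simp only [hG]
    rw [hT y (hballa y hy), LinearIsometryEquiv.symm_apply_apply]
  have hGa : G (-a) = -a := hGid _ (by simpa using hr'0)
  have hGna : G a ≠ a := by
    intro hGaa
    apply hnt
    have hGx : ∀ x, G x = x := by
      intro x
      have h1 := hGe.1 x a
      have h2 := hGe.1 x (-a)
      rw [hGaa] at h1
      rw [hGa, inner_neg_right, inner_neg_right] at h2
      have h3 : ⟪G x, a⟫ = ⟪x, a⟫ := by linarith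
      set s := (‖x‖ + 1) / r' with hs
      have hs0 : 0 < s := by positivity
      have h4 : ‖x‖ < r' * s := by rw [hs]; field_simp; linarith
      have h5 := fix_far hGe hGid hs0 h4
      have h6 := hGe.1 x (x - s • a)
      rw [h5, inner_sub_right, inner_sub_right, real_inner_smul_right, real_inner_smul_right,
        h3, real_inner_self_eq_norm_sq] at h6
      rw [← sub_eq_zero, ← norm_eq_zero, ← sq_eq_zero_iff]
      apply le_antisymm _ (sq_nonneg _)
      rw [@norm_sub_sq_real, hGe.2]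
      linarith
    have h1 : ∀ x : E m, hext f x = T x := by
      intro x
      have h2 := congrArg T (hGx x)
      simp only [hG, LinearIsometryEquiv.apply_symm_apply] at h2
      exact h2
    have h2 : f = sphIso T := by
      funext x
      apply Subtype.ext
      rw [← hext_sph f x, h1]
      rfl
    rw [h2]
    exact ⟨(sphIso T).isometry, (sphIso T).surjective⟩
  obtain ⟨p, v, hp, hv, hpv⟩ := exists_pair hm
  obtain ⟨w, hw, haw, τ₀, hτ0, hτπ, hGaw⟩ := polar hp hv hpv ha (by rw [hGe.2, ha] : ‖G a‖ = 1)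
  have hτpos : 0 < τ₀ := by
    rcases hτ0.eq_or_lt with h | h
    · exfalso
      apply hGna
      rw [hGaw, ← h]; simp
    · exact h
  refine ⟨T, w, hw, ?_⟩
  have hmem : ∀ t : unitInterval, τ₀ * (1 - (t : ℝ)) ∈ Icc 0 Real.pi := by
    intro t
    have h1 := t.2.1
    have h2 := t.2.2
    constructor
    · exact mul_nonneg hτ0 (by linarith)
    · nlinarith
  have hKe : ∀ t : unitInterval, Expn (K G a w (τ₀ * (1 - (t : ℝ)))) := fun t =>
    K_expn hGe ha hw haw hGa (hmem t).2
  refine ⟨fun q => sphIso T (rs _ (hKe q.2).2 q.1), ?_, ?_, ?_, ?_⟩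
  · apply (sphIso T).continuous.comp
    rw [continuous_induced_rng]
    change Continuous fun q : Sph m × unitInterval =>
      K G a w (τ₀ * (1 - (q.2 : ℝ))) (q.1 : E m)
    rw [continuous_iff_continuousAt]
    rintro ⟨x₁, t₁⟩
    unfold ContinuousAt
    rw [tendsto_iff_dist_tendsto_zero]
    have h1 : Tendsto (fun q : Sph m × unitInterval => dist (q.1 : E m) (x₁ : E m) +
        dist (K G a w (τ₀ * (1 - (q.2 : ℝ))) (x₁ : E m))
          (K G a w (τ₀ * (1 - (t₁ : ℝ))) (x₁ : E m))) (𝓝 (x₁, t₁)) (𝓝 (0 + 0)) := by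
      apply Tendsto.add
      · have : Continuous fun q : Sph m × unitInterval => dist (q.1 : E m) (x₁ : E m) := by
          fun_prop
        have h2 := this.tendsto (x₁, t₁)
        simpa using h2
      · have h2 : Continuous fun t : unitInterval =>
            K G a w (τ₀ * (1 - (t : ℝ))) (x₁ : E m) := by
          have h3 := K_cont hGe ha hw haw hr'0 hGid (x₁ : E m)
          exact h3.comp_continuous (f := fun t : unitInterval => τ₀ * (1 - (t : ℝ)))
            (by fun_prop) hmem
        have h3 : Continuous fun q : Sph m × unitInterval =>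
            dist (K G a w (τ₀ * (1 - (q.2 : ℝ))) (x₁ : E m))
              (K G a w (τ₀ * (1 - (t₁ : ℝ))) (x₁ : E m)) :=
          (h2.comp continuous_snd).dist continuous_const
        have h4 := h3.tendsto (x₁, t₁)
        simpa using h4
    rw [add_zero] at h1
    refine squeeze_zero (fun _ => dist_nonneg) ?_ h1
    rintro ⟨x, t⟩
    refine (dist_triangle _ (K G a w (τ₀ * (1 - (t : ℝ))) (x₁ : E m)) _).trans ?_
    apply add_le_add _ le_rfl
    rw [dist_eq_norm, dist_eq_norm]
    exact (hKe t).lip _ _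
  · intro x
    apply Subtype.ext
    change T (K G a w (τ₀ * (1 - ((0 : unitInterval) : ℝ))) x) = f x
    have h1 : τ₀ * (1 - ((0 : unitInterval) : ℝ)) = τ₀ := by simp
    have h2 : arc a w τ₀ = G a := hGaw.symm
    rw [h1, K, if_neg (not_le.mpr hτpos), h2, Bm_self hGe ha]
    simp only [hG, LinearIsometryEquiv.apply_symm_apply]
    exact hext_sph f x
  · intro x
    apply Subtype.ext
    change T (K G a w (τ₀ * (1 - ((1 : unitInterval) : ℝ))) x) = T (sfold w x)
    have h1 : τ₀ * (1 - ((1 : unitInterval) : ℝ)) = 0 := by simp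
    rw [h1, K, if_pos le_rfl]
  · intro t
    exact folding_comp (folding_sphIso T)
      (folding_rs (hKe t) (K_cover hGe hGc ha hw haw hGa (hmem t).2))

lemma sphIso_isometry (T : E m ≃ₗᵢ[ℝ] E m) : IsSphereIsometry (sphIso T) :=
  ⟨(sphIso T).isometry, (sphIso T).surjective⟩

/-- **Theorem** (answer to Robertson's question). Let `m ≥ 1` and let `f`, `g` be non-trivial
isometric foldings of `S^m`. Then `g` is homotopic through isometric foldings to
`φ ∘ f ∘ ψ` for some isometries `φ`, `ψ` of `S^m`. -/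
theorem result : ∀ (m : ℕ), 1 ≤ m → ∀ f g : Sph m → Sph m,
    IsNontrivialFolding f → IsNontrivialFolding g →
    ∃ φ ψ : Sph m → Sph m, IsSphereIsometry φ ∧ IsSphereIsometry ψ ∧
      HomotopicThroughFoldings g (φ ∘ f ∘ ψ) := by
  intro m hm f g hf hg
  obtain ⟨Tf, wf, hwf, Hf⟩ := to_standard hm hf.1 hf.2
  obtain ⟨Tg, wg, hwg, Hg⟩ := to_standard hm hg.1 hg.2
  obtain ⟨P, hP⟩ : ∃ P : E m ≃ₗᵢ[ℝ] E m, P wg = wf := by
    refine ⟨(ℝ ∙ (wg - wf))ᗮ.reflection, ?_⟩
    exact Submodule.reflection_sub (by rw [hwg, hwf])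
  have key : ∀ x : E m, P (sfold wg x) = sfold wf (P x) := by
    intro x
    have h1 : ⟪P x, wf⟫ = ⟪x, wg⟫ := by rw [← hP, P.inner_map_map]
    unfold sfold
    rw [h1]
    split_ifs
    · rfl
    · rw [map_sub, map_smul, hP]
  refine ⟨sphIso ((Tf.symm.trans P.symm).trans Tg), sphIso P, sphIso_isometry _,
    sphIso_isometry _, ?_⟩
  refine hom_trans Hg (hom_symm ?_)
  have H1 := hom_comp Hf ((Tf.symm.trans P.symm).trans Tg) P
  have h2 : sphIso ((Tf.symm.trans P.symm).trans Tg) ∘
      (sphIso Tf ∘ rs (sfold wf) (sfold_expn hwf).2) ∘ sphIso P =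
      sphIso Tg ∘ rs (sfold wg) (sfold_expn hwg).2 := by
    ext1 x
    apply Subtype.ext
    change Tg (P.symm (Tf.symm (Tf (sfold wf (P x))))) = Tg (sfold wg x)
    rw [Tf.symm_apply_apply, ← key, P.symm_apply_apply]
  rw [h2] at H1
  exact H1

end Pool.Agent.Results.MP_9d9d56_gt.RobertsonHomotopy
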